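import Pool.Agent.Helper49.OT.Final
import Pool.Agent.Helper84.PH.Bridge

/-!
# A transitive counterexample: the Oeljeklaus–Toma threefold of `ℤ[2^{1/5}]`

`M = (ℍ × ℂ × ℂ) / (ℤ[θ] ⋊ ⟨u⟩)`, `θ = 2^{1/5}`, `u = 1 + θ + θ² + θ³ + θ⁴`, acting through one real
and two complex embeddings; `f` is induced by multiplication by the unit `v = θ⁴ - θ³ + θ² - 1`.
The direction of `ℍ` is central (isometric), the second direction is contracted, the third one is
expanded.
-/

namespace Pool.Agent.Results.MP_398e1f_an.TransitiveCounterexample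

open PH3

universe v

theorem result :
    ∃ (M : Threefold.{0}) (f : M.Pt → M.Pt), IsBiholomorphic f ∧
      (∃ N : M.Pt → ℂ × ℂ × ℂ → ℝ, IsRiemannianNorm N) ∧
      (∀ N : M.Pt → ℂ × ℂ × ℂ → ℝ, IsRiemannianNorm N → IsPartiallyHyperbolic N f) ∧
      IsTransitive f ∧ ∀ n : ℕ, 1 ≤ n → NoLiftOfTypes.{0, v} f^[n] :=
  statement_of HolPH.OT.M HolPH.OT.F HolPH.OT.partiallyHyperbolic_F.1
    HolPH.OT.partiallyHyperbolic_F.2 HolPH.OT.transitive_F HolPH.OT.noLiftIsAlgebraic_F.{v}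

end Pool.Agent.Results.MP_398e1f_an.TransitiveCounterexample
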